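import Pool.Agent.H37.CTP.Stmts
import Pool.Agent.H56.CTL.T56

/-!
# Board `ctp`, row R56

The proof follows `Pool/Agent/H56/CTO/P56.lean` (odd `p`).
-/

set_option autoImplicit false

namespace Pool.CND

open Finset Polynomial

namespace R56H52

open T56H56

theorem arith {f q s ν : ℕ} (hf : 1 ≤ f) (hq : q = 2 ^ f) (hQ4 : 4 ≤ q ^ (s + 1))
    (hν : ν = nu2 q s) : 2 ≤ q ∧ 2 ∣ q ^ (s + 1) ∧ 3 ≤ ν ∧ ¬ 2 ∣ ν := by
  have h2q : 2 ∣ q := by
    rw [hq]
    exact dvd_pow_self 2 (by omega)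
  have hq0 : 0 < q := by rw [hq]; exact pow_pos (by norm_num) f
  have hq2 : 2 ≤ q := Nat.le_of_dvd hq0 h2q
  have h2Q : 2 ∣ q ^ (s + 1) := dvd_pow h2q (by omega)
  have hsum : 1 ≤ ∑ i ∈ range (s + 1), q ^ i := by
    rw [Finset.sum_range_succ']
    simp
  have h1 : 2 * 2 ≤ q * (q ^ (s + 1) - 2) := Nat.mul_le_mul hq2 (by omega)
  have h2 : 2 * 3 * 1 ≤ q * (q * (q ^ (s + 1) - 2) - 1) * ∑ i ∈ range (s + 1), q ^ i :=
    Nat.mul_le_mul (Nat.mul_le_mul hq2 (by omega)) hsum
  have h3 : 2 ∣ q * (q * (q ^ (s + 1) - 2) - 1) * ∑ i ∈ range (s + 1), q ^ i :=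
    Dvd.dvd.mul_right (Dvd.dvd.mul_right h2q _) _
  have h4 : ν = q ^ (s + 1) - 3 +
    q * (q * (q ^ (s + 1) - 2) - 1) * ∑ i ∈ range (s + 1), q ^ i := hν
  obtain ⟨B, hB⟩ : ∃ B, B = q * (q * (q ^ (s + 1) - 2) - 1) * ∑ i ∈ range (s + 1), q ^ i :=
    ⟨_, rfl⟩
  rw [← hB] at h2 h3 h4
  exact ⟨hq2, h2Q, by omega, by omega⟩

theorem ndvd {Q n : ℕ} (hQ : 2 ∣ Q) : ¬ 2 ∣ (Q * n + 3) ∧ ¬ 2 ∣ (Q * n + 1) := by
  have h : 2 ∣ Q * n := Dvd.dvd.mul_right hQ n
  omega

end R56H52

open T56H56 R56H52 in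
theorem r56_thm (h_umr : S_UMR) (h_xt3 : S_XT3) : S_R56 := by
  intro k F L _ _ _ _ _ _ _ f q s t X G₀ _ ρ Y Yt Yp h z θ α P W M τ hchar hf hq hF hQ4 hC ht
    hX0 hY0 hPY hun hθ hgeY hh hord hz hgz2 hge hα hgeA hρh hW hM hτ hpτ hoz
  have hp : (2 : ℕ).Prime := Nat.prime_two
  have := hchar
  have hcL : CharP L 2 := charP_of_injective_algebraMap (algebraMap k L).injective 2
  obtain ⟨ν, hν⟩ : ∃ ν, ν = nu2 q s := ⟨_, rfl⟩
  obtain ⟨Q, hQ⟩ : ∃ Q, Q = q ^ (s + 1) := ⟨_, rfl⟩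
  obtain ⟨hq2, h2Q, hν3, hνodd⟩ := R56H52.arith hf hq hQ4 hν
  have hQc : ((q : ℤ)) ^ (s + 1) = (Q : ℤ) := by rw [hQ]; push_cast; rfl
  rw [← hQ] at hQ4 h2Q hge hz ⊢
  rw [hQc] at hord
  simp only [hQc] at hgeY
  obtain ⟨n3, n1⟩ := R56H52.ndvd (n := ν - 1) h2Q
  have hQd : Q = 2 ^ (f * (s + 1)) := by rw [hQ, hq, ← pow_mul]
  have hd2 : 2 ≤ f * (s + 1) := by
    by_contra hc
    have h1 : 2 ^ (f * (s + 1)) ≤ 2 ^ 1 := Nat.pow_le_pow_right (by norm_num) (by omega)
    rw [← hQd] at h1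
    omega
  rw [← hν] at hgeA ⊢
  have hcM : 1 ≤ Nat.card M := Nat.card_pos
  have hτM : 1 ≤ τ * Nat.card M := Nat.mul_pos hτ hcM
  have hlt : P.ord z < 0 := by
    rw [hoz]
    omega
  have hQ4' : (4 : ℤ) ≤ Q := by exact_mod_cast hQ4
  have hhneg : P.ord h < 0 := by
    by_contra hc
    have h1 : (0 : ℤ) ≤ ((Q : ℤ) - 1) * P.ord h := mul_nonneg (by linarith) (by linarith)
    rw [hord] at h1
    linarith
  have hz0 : z ≠ 0 := by
    intro h0
    rw [h0, zero_pow (by omega), sub_zero, zero_sub] at hge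
    have h1 := (P.ge_iff (neg_ne_zero.2 hh) _).1 hge
    rw [P.ord_neg] at h1
    omega
  obtain ⟨A, hA⟩ : ∃ A, A = z ^ Q - z := ⟨_, rfl⟩
  obtain ⟨hA0, hoA⟩ := ord_as P (by omega : 2 ≤ Q) hz0 hlt
  rw [← hA] at hA0 hoA hge
  have hoh : P.ord h = Q * P.ord z := by
    have h1 : P.Ge (A - h) (P.ord h + 1) := P.ge_mono hge (by omega)
    have h2 := (P.ord_add_of_lt hh h1).2
    have h3 : h + (A - h) = A := by ring
    rw [h3, hoA] at h2
    exact h2.symm
  have hot : P.ord t = ((Q : ℤ) - 1) * P.ord h := hord.symm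
  have hohA : P.ord A = P.ord h := by rw [hoA, hoh]
  -- the estimate of `Y 0 / X 0 ^ q`
  obtain ⟨E1, hE1⟩ : ∃ E1, E1 = Y 0 / X 0 ^ q - algebraMap k L α * A ^ ν := ⟨_, rfl⟩
  have hgE1 : P.Ge E1 (((ν : ℤ) - 2) * P.ord h) := by
    have e1 : E1 = (Y 0 / X 0 ^ q - algebraMap k L α * h ^ ν) +
        algebraMap k L α * (h ^ ν - A ^ ν) := by
      rw [hE1]
      ring
    rw [e1]
    refine P.ge_add hgeA ?_
    have h1 := ge_pow_sub P (P.ge_ord h) (y := A) (o := P.ord h) (e := -P.ord h)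
      (by rw [← hohA]; exact P.ge_ord A)
      (by
        have : h - A = -(A - h) := by ring
        rw [this]; exact P.ge_neg hge) ν (by omega)
    have h2 := P.ge_mul (P.ge_const α) h1
    exact P.ge_mono h2 (le_of_eq (by ring))
  have hYX : Y 0 / X 0 ^ q = algebraMap k L α * A ^ ν + E1 := by rw [hE1]; ring
  obtain ⟨ε, hε⟩ : ∃ ε, ε = Yt / Y 0 - z ^ 2 := ⟨_, rfl⟩
  rw [← hε] at hgz2
  -- the coordinates
  obtain ⟨Z, hZ⟩ : ∃ Z : Fin (s + 2) → L, Z = fun i => X i.succ / X 0 := ⟨_, rfl⟩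
  have hX0q : X 0 ^ q = X 0 ^ (q - 1) * X 0 := by
    rw [← pow_succ]
    congr 1
    omega
  have hX0q1 : X 0 ^ (q - 1) ≠ 0 := pow_ne_zero _ hX0
  have hdiv : ∀ y : L, (y / X 0) ^ q - y / X 0 = (y ^ q - X 0 ^ (q - 1) * y) / X 0 ^ q := by
    intro y
    rw [div_pow, sub_div, hX0q, mul_div_mul_left _ _ hX0q1]
  have hZl : ∀ l : Fin (s + 1), Z (Fin.castSucc l) ^ q - Z (Fin.castSucc l) =
      (Y 0 / X 0 ^ q) * (Y l / Y 0) := by
    intro l
    have h1 : (Fin.castSucc l).succ = mi s l := by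
      apply Fin.ext
      simp [mi]
    rw [hZ]
    simp only
    rw [h1, hdiv, ← hPY.y l]
    field_simp
  have hZt : Z (Fin.last (s + 1)) ^ q - Z (Fin.last (s + 1)) =
      (z ^ 2 + ε) * (Y 0 / X 0 ^ q) := by
    have h1 : (z ^ 2 + ε) * (Y 0 / X 0 ^ q) = Yt / X 0 ^ q := by
      rw [hε]
      field_simp
      ring
    rw [h1, hZ, hPY.yt]
    exact hdiv (X (Fin.last (s + 2)))
  -- the action of `M`
  have hMW : ∀ g ∈ M, g ∈ W ∧ ∀ l, g.1.1 (mi s l) (Fin.last (s + 2)) = 0 := fun g hg =>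
    (hM g).1 hg
  have hMram : ∀ g ∈ M, g ∈ ram P ρ 1 := by
    intro g hg
    rw [← hW]
    exact (hMW g hg).1
  have hrow : ∀ g ∈ M, g.1.1 0 0 = 1 ∧ ∀ i j, i ≠ 0 → g.1.1 i j = if i = j then 1 else 0 := by
    intro g hg
    obtain ⟨u1, u2, u3⟩ := hun g (hMram g hg)
    refine ⟨u1, fun i j hi => ?_⟩
    by_cases hj : j = Fin.last (s + 2)
    · by_cases hil : i = Fin.last (s + 2)
      · rw [hil]
        exact u3 j
      · have h1 := (hMW g hg).2 ⟨i.val - 1, by
          have h2 : i.val ≠ 0 := fun h => hi (Fin.ext h)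
          have h3 : i.val ≠ s + 2 := fun h => hil (Fin.ext h)
          have h4 := i.isLt
          omega⟩
        have h5 : mi s ⟨i.val - 1, by
          have h2 : i.val ≠ 0 := fun h => hi (Fin.ext h)
          have h3 : i.val ≠ s + 2 := fun h => hil (Fin.ext h)
          have h4 := i.isLt
          omega⟩ = i := by
          apply Fin.ext
          have h2 : i.val ≠ 0 := fun h => hi (Fin.ext h)
          simp only [mi]
          omega
        rw [h5] at h1
        rw [hj, h1, if_neg hil]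
    · exact u2 i j hj hi
  have c1 : cst k F L 1 = 1 := by rw [cst, map_one, map_one]
  have c0 : cst k F L 0 = 0 := by rw [cst, map_zero, map_zero]
  have act0 : ∀ g ∈ M, ρ g (X 0) = X 0 := by
    intro g hg
    obtain ⟨r1, r2⟩ := hrow g hg
    rw [hC.act g 0, Fin.sum_univ_succ, r1, c1, one_mul]
    have h1 : ∑ i : Fin (s + 2), cst k F L (g.1.1 i.succ 0) * X i.succ = 0 := by
      refine Finset.sum_eq_zero fun i _ => ?_
      rw [r2 _ _ (Fin.succ_ne_zero i), if_neg (Fin.succ_ne_zero i), c0, zero_mul]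
    rw [h1, add_zero]
  have act1 : ∀ g ∈ M, ∀ i : Fin (s + 2), ρ g (X i.succ) =
      cst k F L (g.1.1 0 i.succ) * X 0 + X i.succ := by
    intro g hg i
    obtain ⟨r1, r2⟩ := hrow g hg
    rw [hC.act g i.succ, Fin.sum_univ_succ]
    congr 1
    rw [Finset.sum_eq_single i]
    · rw [r2 _ _ (Fin.succ_ne_zero i), if_pos rfl, c1, one_mul]
    · intro j _ hj
      rw [r2 _ _ (Fin.succ_ne_zero j), if_neg, c0, zero_mul]
      exact fun h => hj (Fin.succ_injective _ h)
    · intro h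
      exact absurd (Finset.mem_univ i) h
  have hcq : ∀ c : F, cst k F L c ^ q = cst k F L c := by
    intro c
    have h1 : c ^ q = c := by
      rw [← hF, Nat.card_eq_fintype_card]
      exact FiniteField.pow_card c
    rw [cst, ← map_pow, ← map_pow, h1]
  have hqchar : ∀ a b : L, (a + b) ^ q = a ^ q + b ^ q := by
    intro a b
    have hfact : Fact (2 : ℕ).Prime := ⟨hp⟩
    rw [hq]
    exact add_pow_char_pow a b 2 f
  have hM1 : ∀ g ∈ M, ∀ i : Fin (s + 2), ρ g (X i.succ ^ q - X 0 ^ (q - 1) * X i.succ) =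
      X i.succ ^ q - X 0 ^ (q - 1) * X i.succ := by
    intro g hg i
    rw [map_sub, map_mul, map_pow, map_pow, act0 g hg, act1 g hg i, hqchar, mul_pow, hcq, hX0q]
    ring
  have hfixz : ∀ g ∈ M, ρ g z = z := by
    intro g hg
    have h1 : ρ g (Y 0) = Y 0 := by
      have h2 : (0 : Fin (s + 2)).succ = mi s 0 := by
        apply Fin.ext
        simp [mi]
      rw [hPY.y 0, ← h2]
      exact hM1 g hg 0
    have h3 : ρ g Yt = Yt := by
      rw [hPY.yt, ← Fin.succ_last]
      exact hM1 g hg (Fin.last (s + 1))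
    rw [hz, map_add, map_pow, map_div₀, h1, h3, hρh g (hMram g hg)]
  have hfix : ∀ r : Polynomial k, ∀ w ∈ M, ρ w (aeval z r) = aeval z r := by
    intro r w hw
    have h2 : ρ w (aeval z r) = aeval (ρ w z) r :=
      (Polynomial.aeval_algHom_apply (ρ w : L ≃ₐ[k] L).toAlgHom z r).symm
    rw [h2, hfixz w hw]
  have haev : ∀ n : ℕ, aeval z ((Polynomial.X ^ Q + Polynomial.X : Polynomial k) ^ n) =
      A ^ n := by
    intro n
    rw [map_pow, map_add, map_pow, aeval_X, hA, CharTwo.sub_eq_add]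
  -- the orders
  have hmain : ∀ a : Fin (s + 2) → F, a ≠ 0 → ∃ Dd : ℕ, 1 ≤ Dd ∧ ¬ 2 ∣ Dd ∧
      Dd ≤ (Q * (ν - 1) + 3) * τ ∧ (a (Fin.last (s + 1)) ≠ 0 → Dd = (Q * (ν - 1) + 3) * τ) ∧
      ∃ g : L, (∀ w ∈ M, ρ w g = g) ∧
        (∑ i, cst k F L (a i) * (Z i ^ q - Z i) - (g ^ 2 - g)) ≠ 0 ∧
        P.ord (∑ i, cst k F L (a i) * (Z i ^ q - Z i) - (g ^ 2 - g)) =
          -((Dd * Nat.card M : ℕ) : ℤ) := by
    intro a ha
    obtain ⟨Θ, hΘ⟩ : ∃ Θ : k, Θ = ∑ l : Fin (s + 1), algebraMap F k (a (Fin.castSucc l)) * θ l :=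
      ⟨_, rfl⟩
    obtain ⟨E3, hE3⟩ : ∃ E3 : L, E3 = ∑ l : Fin (s + 1), cst k F L (a (Fin.castSucc l)) *
      (Y l / Y 0 - algebraMap k L (θ l)) := ⟨_, rfl⟩
    have hgE3 : P.Ge E3 (-2 * P.ord h) := by
      rw [hE3]
      refine P.ge_sum _ _ _ fun l _ => ?_
      have h0 : P.Ge (Y l / Y 0 - algebraMap k L (θ l)) (-2 * P.ord h) := by
        rcases hgeY l with h1 | h1
        · left
          rw [h1, sub_self]
        · right
          rw [hot] at h1
          have h2 : ((Q : ℤ) - 1) * (-2 * P.ord h) ≤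
              ((Q : ℤ) - 1) * P.ord (Y l / Y 0 - algebraMap k L (θ l)) := by linarith
          exact le_of_mul_le_mul_left h2 (by linarith)
      have h1 := P.ge_mul (P.ge_const (algebraMap F k (a (Fin.castSucc l)))) h0
      exact P.ge_mono h1 (by linarith)
    have hsum : ∑ i, cst k F L (a i) * (Z i ^ q - Z i) =
        (algebraMap k L α * A ^ ν + E1) * (algebraMap k L Θ + E3) +
        cst k F L (a (Fin.last (s + 1))) * ((z ^ 2 + ε) * (algebraMap k L α * A ^ ν + E1)) := by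
      rw [Fin.sum_univ_castSucc, hZt, hYX]
      congr 1
      rw [hΘ, hE3, map_sum, ← Finset.sum_add_distrib, Finset.mul_sum]
      refine Finset.sum_congr rfl fun l _ => ?_
      rw [hZl, hYX, map_mul, cst]
      ring
    have hcast : ((ν : ℤ)) = (ν - 1 : ℕ) + 1 := by omega
    have ho1 : P.ord z ≤ -1 := by omega
    -- error terms
    have hAν : P.Ge (A ^ ν) ((ν : ℤ) * P.ord h) := by
      have := ge_pow P (P.ge_ord A) ν
      rwa [hohA] at this
    have hg0 : P.Ge (E1 * (algebraMap k L Θ + E3) + algebraMap k L α * A ^ ν * E3)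
        (((ν : ℤ) - 2) * P.ord h) := by
      have g1 := P.ge_mul hgE1 (P.ge_add (P.ge_const Θ) (P.ge_mono hgE3 (by linarith : (0 : ℤ) ≤ _)))
      have g2 := P.ge_mul (P.ge_mul (P.ge_const α) hAν) hgE3
      exact P.ge_add (P.ge_mono g1 (by linarith)) (P.ge_mono g2 (by linarith))
    have hxt := h_xt3 (f * (s + 1)) k ν (Θ * α) (algebraMap F k (a (Fin.last (s + 1))) * α) 0
      (Polynomial.X ^ Q + Polynomial.X) hd2 (by rw [hQd]) hν3 hνodd
    rw [← hQd, natDegree_zero] at hxt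
    by_cases ha1 : a (Fin.last (s + 1)) = 0
    · have hΘ0 : Θ ≠ 0 := by
        intro h0
        apply ha
        have h1 := hθ (fun l => a (Fin.castSucc l)) (by rw [← hΘ, h0])
        funext i
        refine Fin.lastCases ha1 (fun l => ?_) i
        exact congrFun h1 l
      have hb0 : Θ * α ≠ 0 := mul_ne_zero hΘ0 hα
      obtain ⟨r, hdeg⟩ := hxt.2 (by rw [ha1, map_zero, zero_mul]) hb0 (by omega)
      rw [add_zero] at hdeg
      refine ⟨(Q * (ν - 1) + 1) * τ, Nat.mul_pos (by omega) hτ, fun hd => ?_,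
        Nat.mul_le_mul_right _ (by omega), fun h1 => absurd ha1 h1, aeval z r, hfix r, ?_⟩
      · rcases hp.dvd_mul.1 hd with h1 | h1
        · exact n1 h1
        · exact hpτ h1
      · have key := ord_tot P hz0 hlt hdeg (by omega)
          (E := E1 * (algebraMap k L Θ + E3) + algebraMap k L α * A ^ ν * E3)
          (Sm := ∑ i, cst k F L (a i) * (Z i ^ q - Z i)) ?_ ?_
        · refine ⟨key.1, ?_⟩
          rw [key.2, hoz]
          push_cast
          ring
        · rw [hsum, ha1, c0, map_mul, aeval_C, haev, map_mul]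
          ring
        · refine P.ge_mono hg0 ?_
          rw [hoh, hcast]
          push_cast
          nlinarith [mul_nonneg (by linarith : (0 : ℤ) ≤ -P.ord z)
            (by linarith : (0 : ℤ) ≤ (Q : ℤ))]
    · have hb1 : algebraMap F k (a (Fin.last (s + 1))) * α ≠ 0 :=
        mul_ne_zero (by rwa [Ne, map_eq_zero]) hα
      obtain ⟨r, hdeg⟩ := hxt.1 hb1 (by omega)
      rw [add_zero] at hdeg
      refine ⟨(Q * (ν - 1) + 3) * τ, Nat.mul_pos (by omega) hτ, fun hd => ?_, le_rfl,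
        fun _ => rfl, aeval z r, hfix r, ?_⟩
      · rcases hp.dvd_mul.1 hd with h1 | h1
        · exact n3 h1
        · exact hpτ h1
      · have key := ord_tot P hz0 hlt hdeg (by omega)
          (E := (E1 * (algebraMap k L Θ + E3) + algebraMap k L α * A ^ ν * E3) +
          cst k F L (a (Fin.last (s + 1))) * (z ^ 2 * E1 +
            ε * (algebraMap k L α * A ^ ν + E1)))
          (Sm := ∑ i, cst k F L (a i) * (Z i ^ q - Z i)) ?_ ?_
        · refine ⟨key.1, ?_⟩
          rw [key.2, hoz]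
          push_cast
          ring
        · rw [hsum]
          simp only [map_add, map_mul, map_pow, aeval_C, aeval_X, cst]
          have h1 := haev 1
          rw [pow_one, pow_one, map_add, map_pow, aeval_X] at h1
          rw [h1]
          ring
        · have g2 : P.Ge (z ^ 2 * E1) (2 * P.ord z + ((ν : ℤ) - 2) * P.ord h) := by
            have := P.ge_mul (ge_pow P (P.ge_ord z) 2) hgE1
            exact P.ge_mono this (by push_cast; linarith)
          have g3 : P.Ge (ε * (algebraMap k L α * A ^ ν + E1)) (((ν : ℤ) - 1) * P.ord h) := by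
            have h1 : P.Ge (algebraMap k L α * A ^ ν + E1) ((ν : ℤ) * P.ord h) :=
              P.ge_add (P.ge_mono (P.ge_mul (P.ge_const α) hAν) (by linarith))
                (P.ge_mono hgE1 (by linarith))
            exact P.ge_mono (P.ge_mul hgz2 h1) (by linarith)
          have hh2 : P.ord h ≤ 2 * P.ord z := by rw [hoh]; nlinarith
          have g1' : P.Ge (E1 * (algebraMap k L Θ + E3) + algebraMap k L α * A ^ ν * E3)
              (((ν : ℤ) - 1) * P.ord h) := P.ge_mono hg0 (by linarith)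
          have g2' : P.Ge (z ^ 2 * E1) (((ν : ℤ) - 1) * P.ord h) :=
            P.ge_mono g2 (by linarith)
          have g4 := P.ge_mul (P.ge_const (algebraMap F k (a (Fin.last (s + 1)))))
            (P.ge_add g2' g3)
          rw [zero_add] at g4
          refine P.ge_mono (P.ge_add g1' g4) ?_
          rw [hoh, hcast]
          push_cast
          nlinarith
  choose! Da hDa using hmain
  obtain ⟨hc1, hc2, -, hc4⟩ := h_umr 2 k F L G₀ f q (s + 2) ((Q * (ν - 1) + 3) * τ) P ρ M ⊥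
    (fun g => fun i => g.1.1 0 i.succ) Z Da hp hchar hf hq hF (by omega) hC.cov.inj hMram
    bot_le
    (by
      intro g hg
      obtain ⟨r1, r2⟩ := hrow g hg
      constructor
      · intro h1
        rw [Subgroup.mem_bot] at h1
        rw [h1]
        funext i
        show (1 : Matrix (Fin (s + 3)) (Fin (s + 3)) F) 0 i.succ = 0
        rw [Matrix.one_apply_ne (Fin.succ_ne_zero i).symm]
      · intro h1
        rw [Subgroup.mem_bot]
        refine Subtype.ext (Matrix.SpecialLinearGroup.ext _ _ fun i j => ?_)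
        show g.1.1 i j = (1 : Matrix (Fin (s + 3)) (Fin (s + 3)) F) i j
        rw [Matrix.one_apply]
        by_cases hi : i = 0
        · subst hi
          refine Fin.cases ?_ (fun l => ?_) j
          · rw [r1, if_pos rfl]
          · rw [if_neg (Fin.succ_ne_zero l).symm]
            exact congrFun h1 l
        · exact r2 i j hi)
    (by
      intro g hg g' hg'
      obtain ⟨r1, r2⟩ := hrow g hg
      obtain ⟨r1', r2'⟩ := hrow g' hg'
      funext i
      show (g * g').1.1 0 i.succ = g.1.1 0 i.succ + g'.1.1 0 i.succ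
      rw [Subgroup.coe_mul, Matrix.SpecialLinearGroup.coe_mul, Matrix.mul_apply,
        Fin.sum_univ_succ, r1, one_mul, add_comm]
      congr 1
      rw [Finset.sum_eq_single i]
      · rw [r2' _ _ (Fin.succ_ne_zero i), if_pos rfl, mul_one]
      · intro j _ hj
        rw [r2' _ _ (Fin.succ_ne_zero j), if_neg, mul_zero]
        exact fun h => hj (Fin.succ_injective _ h)
      · intro h
        exact absurd (Finset.mem_univ i) h)
    (by
      intro g hg i
      rw [hZ]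
      simp only
      rw [map_div₀, act0 g hg, act1 g hg i]
      field_simp
      ring)
    (by
      intro a ha
      obtain ⟨h1, h2, h3, -, h5⟩ := hDa a ha
      exact ⟨h1, h2, h3, h5⟩)
  have hbot : Nat.card (⊥ : Subgroup G₀) = 1 := Subgroup.card_bot
  refine ⟨by rw [hc1, hbot, mul_one], fun v => ?_, ?_⟩
  · obtain ⟨g, hg, hg'⟩ := hc2 v
    exact ⟨g, hg, fun i => congrFun hg' i⟩
  · obtain ⟨a₀, ha₀⟩ : ∃ a₀ : Fin (s + 2) → F, a₀ = Pi.single (Fin.last (s + 1)) 1 := ⟨_, rfl⟩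
    have h1 : a₀ (Fin.last (s + 1)) ≠ 0 := by
      rw [ha₀, Pi.single_eq_same]
      exact one_ne_zero
    have hne : a₀ ≠ 0 := fun h0 => h1 (congrFun h0 _)
    exact hc4 rfl ⟨a₀, hne, (hDa _ hne).2.2.2.1 h1⟩

end Pool.CND
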